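import Mathlib

set_option autoImplicit false

/-!
We construct a subfield `K` of the real numbers which is closed under square roots of its
nonnegative elements (so that it has a unique field ordering, which is archimedean) and in which
the set of cubes is not a Borel subset of `K`.
-/

namespace Pool.Agent.Results.MP_37207a_lc.NonBorelCubes

open Cardinal Set FirstOrder MeasureTheory

/-- Every field ordering of `F` (a linear order compatible with the ring operations) is
archimedean: every element is smaller than some natural number. -/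
def OnlyArchimedeanOrderings (F : Type) [Field F] : Prop :=
  ∀ _ : LinearOrder F, IsStrictOrderedRing F → ∀ x : F, ∃ n : ℕ, x < (n : F)

/-- If `t` is transcendental over a field `L`, then `t` is not in `L(t^3)`. -/
theorem not_mem_adjoin_cube {L E : Type*} [Field L] [Field E] [Algebra L E] {t : E}
    (ht : Transcendental L t) : t ∉ IntermediateField.adjoin L {t ^ 3} := by
  intro hmem
  rw [IntermediateField.mem_adjoin_simple_iff] at hmem
  obtain ⟨r, s, h⟩ := hmem
  have hinj : Function.Injective (Polynomial.aeval (R := L) t) :=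
    transcendental_iff_injective.mp ht
  have ht0 : t ≠ 0 := fun h0 => ht (h0 ▸ isAlgebraic_zero)
  have hs : Polynomial.aeval (t ^ 3) s ≠ 0 := by
    intro h0
    rw [h0, div_zero] at h
    exact ht0 h
  have hs0 : s ≠ 0 := by
    rintro rfl
    simp at hs
  have key : Polynomial.aeval t (Polynomial.X * Polynomial.expand L 3 s) =
      Polynomial.aeval t (Polynomial.expand L 3 r) := by
    rw [map_mul, Polynomial.aeval_X, Polynomial.expand_aeval, Polynomial.expand_aeval]
    rw [eq_div_iff hs] at h
    exact h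
  have h2 := hinj key
  have h3 := congrArg Polynomial.natDegree h2
  rw [Polynomial.natDegree_X_mul (by
      rw [Ne, Polynomial.expand_eq_zero (by norm_num)]
      exact hs0), Polynomial.natDegree_expand, Polynomial.natDegree_expand] at h3
  omega

/-- The cube roots of real numbers are unique. -/
theorem cube_inj {x y : ℝ} (h : x ^ 3 = y ^ 3) : x = y :=
  (Odd.strictMono_pow (by decide : Odd 3)).injective h

/-- The subfield `K(√a)` of the real numbers, for `a ∈ K` nonnegative with `√a ∉ K`. -/
noncomputable def quadExt (K : Subfield ℝ) (a r : ℝ) (haK : a ∈ K) (hr : r * r = a) (hrK : r ∉ K) :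
    Subfield ℝ where
  carrier := {x | ∃ u ∈ K, ∃ v ∈ K, x = u + v * r}
  mul_mem' := by
    rintro _ _ ⟨u, hu, v, hv, rfl⟩ ⟨u', hu', v', hv', rfl⟩
    refine ⟨u * u' + v * v' * a, K.add_mem (K.mul_mem hu hu') (K.mul_mem (K.mul_mem hv hv') haK),
      u * v' + v * u', K.add_mem (K.mul_mem hu hv') (K.mul_mem hv hu'), ?_⟩
    rw [← hr]; ring
  one_mem' := ⟨1, K.one_mem, 0, K.zero_mem, by ring⟩
  add_mem' := by
    rintro _ _ ⟨u, hu, v, hv, rfl⟩ ⟨u', hu', v', hv', rfl⟩
    exact ⟨u + u', K.add_mem hu hu', v + v', K.add_mem hv hv', by ring⟩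
  zero_mem' := ⟨0, K.zero_mem, 0, K.zero_mem, by ring⟩
  neg_mem' := by
    rintro _ ⟨u, hu, v, hv, rfl⟩
    exact ⟨-u, K.neg_mem hu, -v, K.neg_mem hv, by ring⟩
  inv_mem' := by
    rintro _ ⟨u, hu, v, hv, rfl⟩
    by_cases h0 : u * u - v * v * a = 0
    · have hv0 : v = 0 := by
        by_contra hv0
        apply hrK
        have h1 : (u / v) * (u / v) = r * r := by
          field_simp
          rw [pow_two, pow_two, pow_two]
          linear_combination h0 - v * v * hr
        rcases mul_self_eq_mul_self_iff.mp h1 with h2 | h2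
        · rw [← h2]; exact K.div_mem hu hv
        · have : r = -(u / v) := by rw [h2]; ring
          rw [this]; exact K.neg_mem (K.div_mem hu hv)
      subst hv0
      exact ⟨u⁻¹, K.inv_mem hu, 0, K.zero_mem, by simp⟩
    · have hn : (u * u - v * v * a) ∈ K :=
        K.sub_mem (K.mul_mem hu hu) (K.mul_mem (K.mul_mem hv hv) haK)
      refine ⟨u / (u * u - v * v * a), K.div_mem hu hn, -v / (u * u - v * v * a),
        K.div_mem (K.neg_mem hv) hn, ?_⟩
      have hprod : (u + v * r) * (u - v * r) = u * u - v * v * a := by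
        rw [← hr]; ring
      have hne : u + v * r ≠ 0 := by
        intro h; rw [h, zero_mul] at hprod; exact h0 hprod.symm
      rw [inv_eq_of_mul_eq_one_right]
      have : (u + v * r) * (u / (u * u - v * v * a) + -v / (u * u - v * v * a) * r) =
          ((u + v * r) * (u - v * r)) / (u * u - v * v * a) := by
        ring
      rw [this, hprod, div_self h0]

theorem le_quadExt (K : Subfield ℝ) (a r : ℝ) (haK : a ∈ K) (hr : r * r = a) (hrK : r ∉ K) :
    K ≤ quadExt K a r haK hr hrK := fun x hx => ⟨x, hx, 0, K.zero_mem, by ring⟩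

theorem mem_quadExt (K : Subfield ℝ) (a r : ℝ) (haK : a ∈ K) (hr : r * r = a) (hrK : r ∉ K) :
    r ∈ quadExt K a r haK hr hrK := ⟨0, K.zero_mem, 1, K.one_mem, by ring⟩

/-- If `x ∈ K(√a)` has its cube in `K`, then `x ∈ K`. -/
theorem mem_of_cube_mem (K : Subfield ℝ) (a r : ℝ) (haK : a ∈ K) (hr : r * r = a)
    (hrK : r ∉ K) {x : ℝ} (hx : x ∈ quadExt K a r haK hr hrK) (hx3 : x ^ 3 ∈ K) : x ∈ K := by
  obtain ⟨u, hu, v, hv, rfl⟩ := hx
  have hr0 : r ≠ 0 := fun h => hrK (h ▸ K.zero_mem)
  have ha0 : 0 < a := by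
    rw [← hr]; exact mul_self_pos.mpr hr0
  have hexp : (u + v * r) ^ 3 = (u ^ 3 + 3 * u * v ^ 2 * a) + (v * (3 * u ^ 2 + v ^ 2 * a)) * r := by
    rw [← hr]; ring
  have hA : u ^ 3 + 3 * u * v ^ 2 * a ∈ K :=
    K.add_mem (K.pow_mem hu 3) (K.mul_mem (K.mul_mem (K.mul_mem (by
      exact_mod_cast natCast_mem K 3) hu) (K.pow_mem hv 2)) haK)
  have hB : v * (3 * u ^ 2 + v ^ 2 * a) ∈ K :=
    K.mul_mem hv (K.add_mem (K.mul_mem (by exact_mod_cast natCast_mem K 3) (K.pow_mem hu 2))
      (K.mul_mem (K.pow_mem hv 2) haK))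
  have hB0 : v * (3 * u ^ 2 + v ^ 2 * a) = 0 := by
    by_contra hne
    apply hrK
    have : r = ((u + v * r) ^ 3 - (u ^ 3 + 3 * u * v ^ 2 * a)) / (v * (3 * u ^ 2 + v ^ 2 * a)) := by
      rw [eq_div_iff hne, hexp]; ring
    rw [this]
    exact K.div_mem (K.sub_mem hx3 hA) hB
  have hv0 : v = 0 := by
    rcases mul_eq_zero.mp hB0 with h | h
    · exact h
    · by_contra hv0
      have h1 : 0 < v ^ 2 * a := mul_pos (by positivity) ha0
      have h2 : 0 ≤ 3 * u ^ 2 := by positivity
      linarith
  subst hv0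
  simpa using hu


section Family

variable {I : Set ℝ} (hI : AlgebraicIndependent ℚ ((↑) : I → ℝ))

/-- The base field attached to a set `A` of indices. -/
noncomputable def baseField (A : Set I) : Subfield ℝ :=
  Subfield.closure ({x | ∃ i : I, i ∈ A ∧ x = (i : ℝ)} ∪ {x | ∃ i : I, x = (i : ℝ) ^ 3})

include hI in
theorem not_mem_baseField (A : Set I) (i : I) (hi : i ∉ A) : (i : ℝ) ∉ baseField A := by
  intro hmem
  let L : IntermediateField ℚ ℝ := IntermediateField.adjoin ℚ (((↑) : I → ℝ) '' {i}ᶜ)
  have htr : Transcendental L (i : ℝ) := by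
    have h1 := hI.transcendental_adjoin (s := {i}ᶜ) (i := i) (by simp)
    exact IntermediateField.transcendental_adjoin_iff.mpr h1
  have hno := not_mem_adjoin_cube htr
  apply hno
  have hsub : baseField A ≤ (IntermediateField.adjoin L {(i : ℝ) ^ 3}).toSubfield := by
    rw [baseField, Subfield.closure_le]
    have hL : ∀ j : I, j ≠ i → (j : ℝ) ∈ IntermediateField.adjoin L {(i : ℝ) ^ 3} := by
      intro j hj
      have hjL : (j : ℝ) ∈ L := IntermediateField.subset_adjoin _ _ ⟨j, by simpa using hj, rfl⟩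
      exact (IntermediateField.adjoin L {(i : ℝ) ^ 3}).algebraMap_mem ⟨(j : ℝ), hjL⟩
    rintro x (⟨j, hj, rfl⟩ | ⟨j, rfl⟩)
    · exact hL j (fun h => hi (h ▸ hj))
    · by_cases hji : j = i
      · subst hji
        exact IntermediateField.subset_adjoin _ _ rfl
      · exact pow_mem (hL j hji) 3
  exact hsub hmem

/-- For each `A` there is a subfield closed under square roots of nonnegative elements,
containing all the cubes and containing exactly those elements of `I` which lie in `A`. -/
theorem exists_field (hI : AlgebraicIndependent ℚ ((↑) : I → ℝ)) (A : Set I) :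
    ∃ K : Subfield ℝ, (∀ a ∈ K, 0 ≤ a → ∃ r ∈ K, r * r = a) ∧
      (∀ i : I, (i : ℝ) ^ 3 ∈ K) ∧ (∀ i : I, (i : ℝ) ∈ K ↔ i ∈ A) := by
  let S : Set (Subfield ℝ) := {K | baseField A ≤ K ∧ ∀ i : I, i ∉ A → (i : ℝ) ∉ K}
  have hS0 : baseField A ∈ S := ⟨le_rfl, fun i hi => not_mem_baseField hI A i hi⟩
  obtain ⟨K, -, hK⟩ := zorn_le_nonempty₀ S (by
    intro c hc hchain y hy
    refine ⟨sSup c, ⟨(hc hy).1.trans (le_sSup hy), ?_⟩, fun z hz => le_sSup hz⟩
    intro i hi hmem
    rw [Subfield.mem_sSup_of_directedOn ⟨y, hy⟩ hchain.directedOn] at hmem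
    obtain ⟨z, hz, hiz⟩ := hmem
    exact (hc hz).2 i hi hiz) (baseField A) hS0
  have hKS : K ∈ S := hK.1
  have hcube : ∀ i : I, (i : ℝ) ^ 3 ∈ K := fun i =>
    hKS.1 (Subfield.subset_closure (Or.inr ⟨i, rfl⟩))
  refine ⟨K, ?_, hcube, ?_⟩
  · intro a ha h0
    refine ⟨Real.sqrt a, ?_, Real.mul_self_sqrt h0⟩
    by_contra hr
    set K' := quadExt K a (Real.sqrt a) ha (Real.mul_self_sqrt h0) hr with hK'
    have hle : K ≤ K' := le_quadExt K a (Real.sqrt a) ha (Real.mul_self_sqrt h0) hr
    have hrK' : Real.sqrt a ∈ K' := mem_quadExt K a (Real.sqrt a) ha (Real.mul_self_sqrt h0) hr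
    have hK'S : K' ∈ S := by
      refine ⟨hKS.1.trans hle, ?_⟩
      intro i hi hmem
      exact hKS.2 i hi (mem_of_cube_mem K a (Real.sqrt a) ha (Real.mul_self_sqrt h0) hr hmem
        (hcube i))
    exact hr (hK.2 hK'S hle hrK')
  · intro i
    constructor
    · intro h
      by_contra hi
      exact hKS.2 i hi h
    · intro hi
      exact hKS.1 (Subfield.subset_closure (Or.inl ⟨i, hi, rfl⟩))

end Family

/-- The set of cubes in a field is definable without parameters in the language of rings. -/
theorem definable_cubes (K : Type*) [Field K] :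
    letI := Ring.compatibleRingOfRing K
    (∅ : Set K).Definable₁ Language.ring {y : K | ∃ z : K, y = z ^ 3} := by
  let _ := Ring.compatibleRingOfRing K
  rw [Set.Definable₁, Set.empty_definable_iff]
  let x : Language.ring.Term (Fin 1 ⊕ Fin 1) := Language.Term.var (Sum.inl 0)
  let z : Language.ring.Term (Fin 1 ⊕ Fin 1) := Language.Term.var (Sum.inr 0)
  refine ⟨Language.BoundedFormula.ex (Language.Term.bdEqual x (z * z * z)), ?_⟩
  ext v
  simp only [Set.mem_ofPred_eq, Language.Formula.Realize, Language.BoundedFormula.realize_ex,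
    Language.BoundedFormula.realize_bdEqual, Ring.realize_mul, x, z, Language.Term.realize_var]
  constructor
  · rintro ⟨z, hz⟩
    exact ⟨z, by simp [hz, Fin.snoc]; ring⟩
  · rintro ⟨z, hz⟩
    refine ⟨z, ?_⟩
    simp [Fin.snoc] at hz
    rw [hz]; ring

/-- Let `F` be a field with an injective ring homomorphism to the reals such that each element
with nonnegative image is a square. Then all field orderings of `F` are archimedean. -/
theorem archimedean_of_sqrt (F : Type) [Field F] (φ : F →+* ℝ)
    (hF : ∀ a : F, 0 ≤ φ a → ∃ r : F, r * r = a) : OnlyArchimedeanOrderings F := by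
  intro o ho x
  obtain ⟨n, hn⟩ := exists_nat_gt (φ x)
  refine ⟨n, ?_⟩
  have hpos : 0 < φ ((n : F) - x) := by
    rw [map_sub, map_natCast]
    linarith
  obtain ⟨r, hr⟩ := hF ((n : F) - x) hpos.le
  have h2 : r ≠ 0 := by
    rintro rfl
    rw [← hr] at hpos
    simp at hpos
  have h4 : 0 < r * r := mul_self_pos.mpr h2
  rw [hr] at h4
  exact sub_pos.mp h4

/-- **Main theorem.** There is a subfield `K` of the real numbers all of whose field orderings
are archimedean and a subset `D` of `K`, definable in `K` in the language of rings (even without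
parameters), which is not Borel in `K`. -/
theorem result : ∃ K : Subfield ℝ, OnlyArchimedeanOrderings K ∧
    ∃ D : Set K,
      (letI := Ring.compatibleRingOfRing K; (∅ : Set K).Definable₁ Language.ring D) ∧
      ¬ MeasurableSet[borel K] D := by
  obtain ⟨I, hI⟩ := exists_isTranscendenceBasis ℚ ℝ
  have hcard : #I = 𝔠 := by
    have : Nonempty I := by
      by_contra hempty
      rw [not_nonempty_iff] at hempty
      have h1 : Algebra.IsAlgebraic ℚ ℝ := by
        rw [← hI.isEmpty_iff_isAlgebraic]
        exact hempty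
      have h2 := Algebra.IsAlgebraic.cardinalMk_le_max ℚ ℝ
      rw [Cardinal.mk_real, Cardinal.mkRat, max_self] at h2
      exact absurd h2 (not_le.mpr Cardinal.aleph0_lt_continuum)
    have h := hI.lift_cardinalMk_eq_max_lift
    simp only [Cardinal.lift_id, Cardinal.mkRat, Cardinal.mk_real] at h
    rcases le_total #I ℵ₀ with hle | hle
    · rw [max_eq_left hle, max_self] at h
      exact absurd h Cardinal.aleph0_lt_continuum.ne'
    · rw [max_eq_right hle, max_eq_left hle] at h
      exact h.symm
  choose K hK1 hK2 hK3 using fun A : Set I => exists_field hI.1 A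
  by_contra hcon
  have hmeas : ∀ A : Set I, MeasurableSet[borel (K A)] {y : K A | ∃ z : K A, y = z ^ 3} := by
    intro A
    by_contra hA
    refine hcon ⟨K A, ?_, {y : K A | ∃ z : K A, y = z ^ 3}, definable_cubes (K A), hA⟩
    refine archimedean_of_sqrt (K A) (K A).subtype ?_
    intro a ha
    obtain ⟨r, hr, hra⟩ := hK1 A a a.2 ha
    exact ⟨⟨r, hr⟩, Subtype.ext hra⟩
  have hB : ∀ A : Set I, ∃ B : Set ℝ, MeasurableSet B ∧
      (Subtype.val : K A → ℝ) ⁻¹' B = {y : K A | ∃ z : K A, y = z ^ 3} := by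
    intro A
    have h := hmeas A
    have hb : borel (K A) = (borel ℝ).comap (Subtype.val : K A → ℝ) :=
      (borel_comap (f := (Subtype.val : K A → ℝ)))
    rw [hb] at h
    obtain ⟨B, hB1, hB2⟩ := h
    refine ⟨B, ?_, hB2⟩
    rwa [BorelSpace.measurable_eq (α := ℝ)]
  choose B hBm hBeq using hB
  have hmem : ∀ (A : Set I) (i : I), (i : ℝ) ^ 3 ∈ B A ↔ i ∈ A := by
    intro A i
    have h1 : (i : ℝ) ^ 3 ∈ B A ↔
        (⟨(i : ℝ) ^ 3, hK2 A i⟩ : K A) ∈ (Subtype.val : K A → ℝ) ⁻¹' B A := Iff.rfl
    rw [h1, hBeq A]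
    constructor
    · rintro ⟨z, hz⟩
      have h2 : (i : ℝ) ^ 3 = (z : ℝ) ^ 3 := by
        have := congrArg (Subtype.val : K A → ℝ) hz
        simpa using this
      have h3 := cube_inj h2
      rw [← hK3 A i, h3]
      exact z.2
    · intro hi
      exact ⟨⟨(i : ℝ), (hK3 A i).mpr hi⟩, by ext; simp⟩
  have hinj : Function.Injective (fun A : Set I => (⟨B A, hBm A⟩ : {B : Set ℝ // MeasurableSet B})) := by
    intro A A' h
    have h' : B A = B A' := congrArg Subtype.val h
    ext i
    rw [← hmem A i, ← hmem A' i, h']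
  have hle := Cardinal.mk_le_of_injective hinj
  have hle2 : #{B : Set ℝ // MeasurableSet B} ≤ 𝔠 := by
    obtain ⟨b, hb, hbe⟩ :=
      (inferInstance : MeasurableSpace.CountablyGenerated ℝ).isCountablyGenerated
    have h1 : #b ≤ 𝔠 := (Set.Countable.le_aleph0 hb).trans Cardinal.aleph0_lt_continuum.le
    have h2 := MeasurableSpace.cardinal_measurableSet_le_continuum h1
    rw [← hbe] at h2
    exact h2
  have hlt := Cardinal.cantor #I
  rw [← Cardinal.mk_set] at hlt
  rw [hcard] at hlt
  exact absurd (hle.trans hle2) (not_le.mpr hlt)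

end Pool.Agent.Results.MP_37207a_lc.NonBorelCubes
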